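import Pool.Agent.Lib.II.All2
import Pool.Agent.Lib.II.Brg

/-! The archimedean unramified Ichino-Ikeda integral for `SO(n+1) × SO(n)` over `ℝ` (all
signatures) and `ℂ`. -/

namespace Pool.Agent.Results.MP_f4c338_nt.ArchUnramified

open Pool.Agent.Lib.II

theorem result (F : Type) [RCLike F] (n l : ℕ) (hn : 1 ≤ n) (hL : l ≤ n + 1)
    (hF : l = n + 1 ∨ Module.finrank ℝ F = 1) :
    Ident (if Module.finrank ℝ F = 1 then Complex.Gammaℝ else Complex.Gammaℂ) l
      (SOg F (sh (alt l)) n) (Kg F (alt l) (n + 1)) (Kg F (sh (alt l)) n) :=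
  Brg.ident (All.exact_all F n l hn hL hF)

end Pool.Agent.Results.MP_f4c338_nt.ArchUnramified
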